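import Mathlib

set_option autoImplicit false

namespace H316Z.Gam

open Set Pointwise

/-- The real vector space `M_ℝ = ℝ^n`; the lattice `M` is `ℤ^n`. -/
abbrev E (n : ℕ) : Type := Fin n → ℝ

variable {n : ℕ}

/-- `x` is a lattice point. -/
def IsLat (x : E n) : Prop := ∀ i, ∃ z : ℤ, x i = (z : ℝ)

/-- The lattice polytope spanned by a finite set of lattice points. -/
def poly (S : Finset (Fin n → ℤ)) : Set (E n) :=
  convexHull ℝ {x | ∃ s ∈ S, x = fun i => (s i : ℝ)}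

/-- `(P ∩ M) + (rP ∩ M) = (r+1)P ∩ M` for every integer `r ≥ 1`. -/
def IntClosed (P : Set (E n)) : Prop :=
  ∀ r : ℕ, 1 ≤ r →
    (P ∩ {x | IsLat x}) + (((r : ℝ) • P) ∩ {x | IsLat x}) = (((r : ℝ) + 1) • P) ∩ {x | IsLat x}

/-- The segment from `u` to `v` is an edge (a one-dimensional face) of `P`. -/
def IsEdge (P : Set (E n)) (u v : E n) : Prop := u ≠ v ∧ IsExtreme ℝ P (segment ℝ u v)

/-- Lattice length of the segment from `u` to `v`: number of lattice points minus one. -/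
noncomputable def latLen (u v : E n) : ℕ := (segment ℝ u v ∩ {x | IsLat x}).ncard - 1

/-- `L(P)`: the least lattice length of an edge. -/
noncomputable def minLen (P : Set (E n)) : ℕ :=
  sInf {k | ∃ u v, IsEdge P u v ∧ k = latLen u v}

/-- `C(P,u)`: the cone generated by the vectors `v - u`, `v` a vertex adjacent to `u`. -/
def vcone (P : Set (E n)) (u : E n) : Set (E n) :=
  (PointedCone.hull ℝ {w | ∃ v, IsEdge P u v ∧ w = v - u} : PointedCone ℝ (E n))

/-- `w` is the primitive lattice generator of an extreme ray of the cone `Q`. -/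
def IsRayGen (Q : Set (E n)) (w : E n) : Prop :=
  w ≠ 0 ∧ IsLat w ∧ (∀ (k : ℕ) (y : E n), IsLat y → w = (k : ℝ) • y → k = 1) ∧
    IsExtreme ℝ Q {x | ∃ t : ℝ, 0 ≤ t ∧ x = t • w}

/-- `b` belongs to the minimal Hilbert basis of `Q ∩ M`: a nonzero irreducible element. -/
def IsHilb (Q : Set (E n)) (b : E n) : Prop :=
  b ∈ Q ∧ IsLat b ∧ b ≠ 0 ∧
    ∀ x y : E n, x ∈ Q → IsLat x → y ∈ Q → IsLat y → b = x + y → x = 0 ∨ y = 0

/-- The sums `∑ a_i` over all ways of writing `u = ∑ a_i w_i`, `a_i ≥ 0` real. -/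
def htSet (Q : Set (E n)) (u : E n) : Set ℝ :=
  {s | ∃ a : E n →₀ ℝ, (∀ w, 0 ≤ a w) ∧ (∀ w ∈ a.support, IsRayGen Q w) ∧
    u = a.sum (fun w c => c • w) ∧ s = a.sum (fun _ c => c)}

/-- The sums `∑ λ_j` over all ways of writing `u = ∑ λ_j β_j`, `λ_j` natural numbers. -/
def ordSet (Q : Set (E n)) (u : E n) : Set ℝ :=
  {s | ∃ a : E n →₀ ℕ, (∀ w ∈ a.support, IsHilb Q w) ∧
    u = a.sum (fun w c => (c : ℝ) • w) ∧ s = a.sum (fun _ c => (c : ℝ))}

noncomputable def ht (Q : Set (E n)) (u : E n) : ℝ := sSup (htSet Q u)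

noncomputable def ord (Q : Set (E n)) (u : E n) : ℝ := sSup (ordSet Q u)

/-- `S_Q = {∑ a_i w_i : 0 ≤ a_i < 1}`. -/
def box (Q : Set (E n)) : Set (E n) :=
  {u | ∃ a : E n →₀ ℝ, (∀ w, 0 ≤ a w ∧ a w < 1) ∧ (∀ w ∈ a.support, IsRayGen Q w) ∧
    u = a.sum (fun w c => c • w)}

/-- `Γ_Q`. -/
noncomputable def gammaCone (Q : Set (E n)) : ℝ :=
  sSup {g | ∃ u ∈ box Q, IsLat u ∧ g = ht Q u - ord Q u}

/-- `Γ_P`: the maximum of `Γ_{C(P,u)}` over the vertices `u` of `P`. -/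
noncomputable def gammaP (P : Set (E n)) : ℝ :=
  sSup {g | ∃ u ∈ P.extremePoints ℝ, g = gammaCone (vcone P u)}

end H316Z.Gam
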