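import Pool.Agent.H316Z.Gam.Main

set_option autoImplicit false

namespace H316Z.Gam

open Set Pointwise

/-- the eight vertices -/
def S0 : Finset (Fin 3 → ℤ) :=
  {![0, 0, 0], ![0, 0, 1], ![1, 0, 0], ![1, 0, 1], ![0, 1, 0], ![0, 1, 1], ![1, 1, 4], ![1, 1, 5]}

def vec (a b c : ℤ) : E 3 := ![(a : ℝ), (b : ℝ), (c : ℝ)]

noncomputable def lin (a b c : ℤ) : E 3 →ₗ[ℝ] ℝ :=
  (a : ℝ) • LinearMap.proj 0 + (b : ℝ) • LinearMap.proj 1 + (c : ℝ) • LinearMap.proj 2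

@[simp] lemma vec0 (a b c : ℤ) : vec a b c 0 = a := rfl
@[simp] lemma vec1 (a b c : ℤ) : vec a b c 1 = b := rfl
@[simp] lemma vec2 (a b c : ℤ) : vec a b c 2 = c := rfl

@[simp] lemma lin_apply (a b c : ℤ) (x : E 3) : lin a b c x = a * x 0 + b * x 1 + c * x 2 := by
  simp [lin]

lemma vec_lat (a b c : ℤ) : IsLat (vec a b c) := by
  intro i
  fin_cases i
  · exact ⟨a, rfl⟩
  · exact ⟨b, rfl⟩
  · exact ⟨c, rfl⟩

lemma lin_int (a b c : ℤ) (x : E 3) (hx : IsLat x) : ∃ z : ℤ, lin a b c x = z := by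
  obtain ⟨p, hp⟩ := hx 0
  obtain ⟨q, hq⟩ := hx 1
  obtain ⟨r, hr⟩ := hx 2
  exact ⟨a * p + b * q + c * r, by simp [hp, hq, hr]⟩

lemma ext3 {x y : E 3} (h0 : x 0 = y 0) (h1 : x 1 = y 1) (h2 : x 2 = y 2) : x = y := by
  funext i
  fin_cases i
  · exact h0
  · exact h1
  · exact h2

lemma gen_eq : {x : E 3 | ∃ s ∈ S0, x = fun i => (s i : ℝ)} =
    {vec 0 0 0, vec 0 0 1, vec 1 0 0, vec 1 0 1, vec 0 1 0, vec 0 1 1, vec 1 1 4, vec 1 1 5} := by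
  have e : ∀ a b c : ℤ, (fun i => ((![a, b, c] : Fin 3 → ℤ) i : ℝ)) = vec a b c :=
    fun a b c => ext3 rfl rfl rfl
  ext x
  simp only [S0, Finset.mem_insert, Finset.mem_singleton, mem_ofPred_eq, exists_eq_or_imp,
    exists_eq_left, e, mem_insert_iff, mem_singleton_iff]

lemma conv0 : Convex ℝ (poly S0) := convex_convexHull ℝ _

lemma vmem {x : E 3} (h : x ∈ ({vec 0 0 0, vec 0 0 1, vec 1 0 0, vec 1 0 1, vec 0 1 0, vec 0 1 1,
    vec 1 1 4, vec 1 1 5} : Set (E 3))) : x ∈ poly S0 := by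
  apply subset_convexHull
  rw [gen_eq]
  exact h

lemma m000 : vec 0 0 0 ∈ poly S0 := vmem (by simp)
lemma m001 : vec 0 0 1 ∈ poly S0 := vmem (by simp)
lemma m100 : vec 1 0 0 ∈ poly S0 := vmem (by simp)
lemma m101 : vec 1 0 1 ∈ poly S0 := vmem (by simp)
lemma m010 : vec 0 1 0 ∈ poly S0 := vmem (by simp)
lemma m011 : vec 0 1 1 ∈ poly S0 := vmem (by simp)
lemma m114 : vec 1 1 4 ∈ poly S0 := vmem (by simp)
lemma m115 : vec 1 1 5 ∈ poly S0 := vmem (by simp)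

lemma hdesc (x : E 3) (hx : x ∈ poly S0) : 0 ≤ x 0 ∧ x 0 ≤ 1 ∧ 0 ≤ x 1 ∧ x 1 ≤ 1 ∧ 0 ≤ x 2 ∧
    4 * x 0 + 4 * x 1 - 4 ≤ x 2 ∧ x 2 ≤ 1 + 4 * x 0 ∧ x 2 ≤ 1 + 4 * x 1 := by
  refine convexHull_min (t := {x : E 3 | 0 ≤ x 0 ∧ x 0 ≤ 1 ∧ 0 ≤ x 1 ∧ x 1 ≤ 1 ∧ 0 ≤ x 2 ∧
    4 * x 0 + 4 * x 1 - 4 ≤ x 2 ∧ x 2 ≤ 1 + 4 * x 0 ∧ x 2 ≤ 1 + 4 * x 1}) ?_ ?_ hx
  · rw [gen_eq]
    intro y hy
    simp only [mem_insert_iff, mem_singleton_iff] at hy
    rcases hy with rfl | rfl | rfl | rfl | rfl | rfl | rfl | rfl <;> simp <;> norm_num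
  · rintro y ⟨h1, h2, h3, h4, h5, h6, h7, h8⟩ z ⟨g1, g2, g3, g4, g5, g6, g7, g8⟩ a b ha hb hab
    simp only [mem_ofPred_eq, Pi.add_apply, Pi.smul_apply, smul_eq_mul]
    have hb' : b = 1 - a := by linarith
    subst hb'
    refine ⟨?_, ?_, ?_, ?_, ?_, ?_, ?_, ?_⟩ <;> nlinarith

lemma add_vec (a b c d e f : ℤ) : vec a b c + vec d e f = vec (a + d) (b + e) (c + f) :=
  ext3 (by simp) (by simp) (by simp)

lemma frame_of (a1 a2 a3 f1 f2 f3 g1 g2 g3 p1 p2 p3 q1 q2 q3 r1 r2 r3 : ℤ)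
    (h : (p1 * a1 + q1 * f1 + r1 * g1 = 1 ∧ p2 * a1 + q2 * f1 + r2 * g1 = 0 ∧
        p3 * a1 + q3 * f1 + r3 * g1 = 0) ∧
      (p1 * a2 + q1 * f2 + r1 * g2 = 0 ∧ p2 * a2 + q2 * f2 + r2 * g2 = 1 ∧
        p3 * a2 + q3 * f2 + r3 * g2 = 0) ∧
      (p1 * a3 + q1 * f3 + r1 * g3 = 0 ∧ p2 * a3 + q2 * f3 + r2 * g3 = 0 ∧
        p3 * a3 + q3 * f3 + r3 * g3 = 1))
    (k : (p1 * a1 + p2 * a2 + p3 * a3 = 1 ∧ q1 * a1 + q2 * a2 + q3 * a3 = 0 ∧
        r1 * a1 + r2 * a2 + r3 * a3 = 0) ∧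
      (p1 * f1 + p2 * f2 + p3 * f3 = 0 ∧ q1 * f1 + q2 * f2 + q3 * f3 = 1 ∧
        r1 * f1 + r2 * f2 + r3 * f3 = 0) ∧
      (p1 * g1 + p2 * g2 + p3 * g3 = 0 ∧ q1 * g1 + q2 * g2 + q3 * g3 = 0 ∧
        r1 * g1 + r2 * g2 + r3 * g3 = 1)) :
    Frame (vec a1 a2 a3) (vec f1 f2 f3) (vec g1 g2 g3) (lin p1 p2 p3) (lin q1 q2 q3)
      (lin r1 r2 r3) := by
  obtain ⟨⟨h1, h2, h3⟩, ⟨h4, h5, h6⟩, ⟨h7, h8, h9⟩⟩ := h
  obtain ⟨⟨k1, k2, k3⟩, ⟨k4, k5, k6⟩, ⟨k7, k8, k9⟩⟩ := k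
  have c : ∀ {x y : ℤ}, x = y → (x : ℝ) = y := fun h => by rw [h]
  have h1 := c h1; have h2 := c h2; have h3 := c h3; have h4 := c h4; have h5 := c h5
  have h6 := c h6; have h7 := c h7; have h8 := c h8; have h9 := c h9
  have k1 := c k1; have k2 := c k2; have k3 := c k3; have k4 := c k4; have k5 := c k5
  have k6 := c k6; have k7 := c k7; have k8 := c k8; have k9 := c k9
  push_cast at h1 h2 h3 h4 h5 h6 h7 h8 h9 k1 k2 k3 k4 k5 k6 k7 k8 k9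
  refine ⟨fun x => ext3 ?_ ?_ ?_, vec_lat _ _ _, vec_lat _ _ _, vec_lat _ _ _, lin_int _ _ _,
    lin_int _ _ _, lin_int _ _ _, ?_, ?_, ?_, ?_, ?_, ?_, ?_, ?_, ?_⟩
  · simp only [Pi.add_apply, Pi.smul_apply, smul_eq_mul, lin_apply, vec0]
    linear_combination (-x 0) * h1 - x 1 * h2 - x 2 * h3
  · simp only [Pi.add_apply, Pi.smul_apply, smul_eq_mul, lin_apply, vec1]
    linear_combination (-x 0) * h4 - x 1 * h5 - x 2 * h6
  · simp only [Pi.add_apply, Pi.smul_apply, smul_eq_mul, lin_apply, vec2]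
    linear_combination (-x 0) * h7 - x 1 * h8 - x 2 * h9
  all_goals simp only [lin_apply, vec0, vec1, vec2]; assumption

lemma bnd (u w : E 3) (h : ∀ t : ℝ, (0 ≤ u 0 + t * w 0 ∧ u 0 + t * w 0 ≤ 1 ∧ 0 ≤ u 1 + t * w 1 ∧
    u 1 + t * w 1 ≤ 1 ∧ 0 ≤ u 2 + t * w 2 ∧
    4 * (u 0 + t * w 0) + 4 * (u 1 + t * w 1) - 4 ≤ u 2 + t * w 2 ∧
    u 2 + t * w 2 ≤ 1 + 4 * (u 0 + t * w 0) ∧ u 2 + t * w 2 ≤ 1 + 4 * (u 1 + t * w 1)) → t ≤ 1) :
    ∀ t : ℝ, u + t • w ∈ poly S0 → t ≤ 1 := fun t ht => h t (by simpa using hdesc _ ht)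

lemma nn (u : E 3) (f : E 3 →ₗ[ℝ] ℝ) (h : ∀ x : E 3, (0 ≤ x 0 ∧ x 0 ≤ 1 ∧ 0 ≤ x 1 ∧ x 1 ≤ 1 ∧
    0 ≤ x 2 ∧ 4 * x 0 + 4 * x 1 - 4 ≤ x 2 ∧ x 2 ≤ 1 + 4 * x 0 ∧ x 2 ≤ 1 + 4 * x 1) →
    0 ≤ f (x - u)) : ∀ x ∈ poly S0, 0 ≤ f (x - u) := fun x hx => h x (hdesc x hx)

lemma g000 : Good (vcone (poly S0) (vec 0 0 0)) ∧
    IsEdge (poly S0) (vec 0 0 0) (vec 0 0 0 + vec 1 0 0) := by
  refine good_simple _ conv0 _ (vec 1 0 0) (vec 0 1 0) (vec 0 0 1) (lin 1 0 0) (lin 0 1 0)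
    (lin 0 0 1) (frame_of _ _ _ _ _ _ _ _ _ _ _ _ _ _ _ _ _ _ (by norm_num) (by norm_num)) m000
    (by rw [add_vec]; exact m100) (by rw [add_vec]; exact m010) (by rw [add_vec]; exact m001)
    (nn _ _ ?_) (nn _ _ ?_) (nn _ _ ?_) (bnd _ _ ?_) (bnd _ _ ?_) (bnd _ _ ?_) <;>
  · rintro x ⟨h1, h2, h3, h4, h5, h6, h7, h8⟩
    simp only [lin_apply, Pi.sub_apply, vec0, vec1, vec2] at *
    push_cast at *
    linarith

lemma g101 : Good (vcone (poly S0) (vec 1 0 1)) := by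
  refine (good_simple _ conv0 _ (vec (-1) 0 0) (vec 0 0 (-1)) (vec 0 1 4) (lin (-1) 0 0)
    (lin 0 4 (-1))
    (lin 0 1 0) (frame_of _ _ _ _ _ _ _ _ _ _ _ _ _ _ _ _ _ _ (by norm_num) (by norm_num)) m101
    (by rw [add_vec]; exact m001) (by rw [add_vec]; exact m100) (by rw [add_vec]; exact m115)
    (nn _ _ ?_) (nn _ _ ?_) (nn _ _ ?_) (bnd _ _ ?_) (bnd _ _ ?_) (bnd _ _ ?_)).1 <;>
  · rintro x ⟨h1, h2, h3, h4, h5, h6, h7, h8⟩
    simp only [lin_apply, Pi.sub_apply, vec0, vec1, vec2] at *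
    push_cast at *
    linarith

lemma g011 : Good (vcone (poly S0) (vec 0 1 1)) := by
  refine (good_simple _ conv0 _ (vec 0 (-1) 0) (vec 0 0 (-1)) (vec 1 0 4) (lin 0 (-1) 0)
    (lin 4 0 (-1))
    (lin 1 0 0) (frame_of _ _ _ _ _ _ _ _ _ _ _ _ _ _ _ _ _ _ (by norm_num) (by norm_num)) m011
    (by rw [add_vec]; exact m001) (by rw [add_vec]; exact m010) (by rw [add_vec]; exact m115)
    (nn _ _ ?_) (nn _ _ ?_) (nn _ _ ?_) (bnd _ _ ?_) (bnd _ _ ?_) (bnd _ _ ?_)).1 <;>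
  · rintro x ⟨h1, h2, h3, h4, h5, h6, h7, h8⟩
    simp only [lin_apply, Pi.sub_apply, vec0, vec1, vec2] at *
    push_cast at *
    linarith

lemma g114 : Good (vcone (poly S0) (vec 1 1 4)) := by
  refine (good_simple _ conv0 _ (vec 0 (-1) (-4)) (vec (-1) 0 (-4)) (vec 0 0 1) (lin 0 (-1) 0)
    (lin (-1) 0 0)
    (lin (-4) (-4) 1) (frame_of _ _ _ _ _ _ _ _ _ _ _ _ _ _ _ _ _ _ (by norm_num) (by norm_num))
    m114
    (by rw [add_vec]; exact m100) (by rw [add_vec]; exact m010) (by rw [add_vec]; exact m115)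
    (nn _ _ ?_) (nn _ _ ?_) (nn _ _ ?_) (bnd _ _ ?_) (bnd _ _ ?_) (bnd _ _ ?_)).1 <;>
  · rintro x ⟨h1, h2, h3, h4, h5, h6, h7, h8⟩
    simp only [lin_apply, Pi.sub_apply, vec0, vec1, vec2] at *
    push_cast at *
    linarith

lemma g001 : Good (vcone (poly S0) (vec 0 0 1)) := by
  refine good_four _ conv0 _ (vec 1 0 0) (vec 0 0 (-1)) (vec 1 1 4) (vec 0 1 0) (lin 1 (-1) 0)
    (lin 0 4 (-1))
    (lin 0 1 0) (frame_of _ _ _ _ _ _ _ _ _ _ _ _ _ _ _ _ _ _ (by norm_num) (by norm_num))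
    (ext3 (by norm_num) (by norm_num) (by norm_num)) (vec_lat _ _ _) m001
    (by rw [add_vec]; exact m101) (by rw [add_vec]; exact m000) (by rw [add_vec]; exact m115)
    (by rw [add_vec]; exact m011) (nn _ _ ?_) (nn _ _ ?_) (nn _ _ ?_) (nn _ _ ?_)
    (bnd _ _ ?_) (bnd _ _ ?_) (bnd _ _ ?_) (bnd _ _ ?_) <;>
  · rintro x ⟨h1, h2, h3, h4, h5, h6, h7, h8⟩
    simp only [LinearMap.add_apply, LinearMap.smul_apply, smul_eq_mul, lin_apply, Pi.sub_apply,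
      vec0, vec1, vec2] at *
    push_cast at *
    linarith

lemma g100 : Good (vcone (poly S0) (vec 1 0 0)) := by
  refine good_four _ conv0 _ (vec (-1) 0 0) (vec 0 0 1) (vec (-1) 1 0) (vec 0 1 4)
    (lin (-1) (-1) 0) (lin 0 0 1)
    (lin 0 1 0) (frame_of _ _ _ _ _ _ _ _ _ _ _ _ _ _ _ _ _ _ (by norm_num) (by norm_num))
    (ext3 (by norm_num) (by norm_num) (by norm_num)) (vec_lat _ _ _) m100
    (by rw [add_vec]; exact m000) (by rw [add_vec]; exact m101) (by rw [add_vec]; exact m010)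
    (by rw [add_vec]; exact m114) (nn _ _ ?_) (nn _ _ ?_) (nn _ _ ?_) (nn _ _ ?_)
    (bnd _ _ ?_) (bnd _ _ ?_) (bnd _ _ ?_) (bnd _ _ ?_) <;>
  · rintro x ⟨h1, h2, h3, h4, h5, h6, h7, h8⟩
    simp only [LinearMap.add_apply, LinearMap.smul_apply, smul_eq_mul, lin_apply, Pi.sub_apply,
      vec0, vec1, vec2] at *
    push_cast at *
    linarith

lemma g010 : Good (vcone (poly S0) (vec 0 1 0)) := by
  refine good_four _ conv0 _ (vec 0 (-1) 0) (vec 0 0 1) (vec 1 (-1) 0) (vec 1 0 4)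
    (lin (-1) (-1) 0) (lin 0 0 1)
    (lin 1 0 0) (frame_of _ _ _ _ _ _ _ _ _ _ _ _ _ _ _ _ _ _ (by norm_num) (by norm_num))
    (ext3 (by norm_num) (by norm_num) (by norm_num)) (vec_lat _ _ _) m010
    (by rw [add_vec]; exact m000) (by rw [add_vec]; exact m011) (by rw [add_vec]; exact m100)
    (by rw [add_vec]; exact m114) (nn _ _ ?_) (nn _ _ ?_) (nn _ _ ?_) (nn _ _ ?_)
    (bnd _ _ ?_) (bnd _ _ ?_) (bnd _ _ ?_) (bnd _ _ ?_) <;>
  · rintro x ⟨h1, h2, h3, h4, h5, h6, h7, h8⟩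
    simp only [LinearMap.add_apply, LinearMap.smul_apply, smul_eq_mul, lin_apply, Pi.sub_apply,
      vec0, vec1, vec2] at *
    push_cast at *
    linarith

lemma g115 : Good (vcone (poly S0) (vec 1 1 5)) := by
  refine good_four _ conv0 _ (vec 0 (-1) (-4)) (vec 0 0 (-1)) (vec (-1) (-1) (-4))
    (vec (-1) 0 (-4)) (lin 1 (-1) 0) (lin 0 4 (-1))
    (lin (-1) 0 0) (frame_of _ _ _ _ _ _ _ _ _ _ _ _ _ _ _ _ _ _ (by norm_num) (by norm_num))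
    (ext3 (by norm_num) (by norm_num) (by norm_num)) (vec_lat _ _ _) m115
    (by rw [add_vec]; exact m101) (by rw [add_vec]; exact m114) (by rw [add_vec]; exact m001)
    (by rw [add_vec]; exact m011) (nn _ _ ?_) (nn _ _ ?_) (nn _ _ ?_) (nn _ _ ?_)
    (bnd _ _ ?_) (bnd _ _ ?_) (bnd _ _ ?_) (bnd _ _ ?_) <;>
  · rintro x ⟨h1, h2, h3, h4, h5, h6, h7, h8⟩
    simp only [LinearMap.add_apply, LinearMap.smul_apply, smul_eq_mul, lin_apply, Pi.sub_apply,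
      vec0, vec1, vec2] at *
    push_cast at *
    linarith

lemma ext_mem {u : E 3} (hu : u ∈ (poly S0).extremePoints ℝ) :
    u ∈ ({vec 0 0 0, vec 0 0 1, vec 1 0 0, vec 1 0 1, vec 0 1 0, vec 0 1 1,
      vec 1 1 4, vec 1 1 5} : Set (E 3)) := by
  rw [← gen_eq]
  exact extremePoints_convexHull_subset hu

lemma good_all (u : E 3) (hu : u ∈ (poly S0).extremePoints ℝ) : Good (vcone (poly S0) u) := by
  have := ext_mem hu
  simp only [mem_insert_iff, mem_singleton_iff] at this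
  rcases this with rfl | rfl | rfl | rfl | rfl | rfl | rfl | rfl
  exacts [g000.1, g001, g100, g101, g010, g011, g114, g115]

lemma ext_lat {u : E 3} (hu : u ∈ (poly S0).extremePoints ℝ) : IsLat u := by
  have := ext_mem hu
  simp only [mem_insert_iff, mem_singleton_iff] at this
  rcases this with rfl | rfl | rfl | rfl | rfl | rfl | rfl | rfl <;> exact vec_lat _ _ _

lemma left_extreme {n : ℕ} {P : Set (E n)} {u v : E n} (h : IsEdge P u v) :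
    u ∈ P.extremePoints ℝ := by
  apply h.2.extremePoints_subset_extremePoints
  refine ⟨left_mem_segment _ _ _, ?_⟩
  rintro x ⟨a, b, ha, hb, hab, rfl⟩ y ⟨c, d, hc, hd, hcd, rfl⟩ ⟨p, q, hp, hq, hpq, e⟩
  have e2 : (p * b + q * d) • (v - u) = 0 := by
    have a' : a = 1 - b := by linarith
    have c' : c = 1 - d := by linarith
    have q' : q = 1 - p := by linarith
    subst a' c' q'
    have : (p * b + (1 - p) * d) • (v - u) =
        p • ((1 - b) • u + b • v) + (1 - p) • ((1 - d) • u + d • v) - u := by module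
    rw [this, e, sub_self]
  rcases smul_eq_zero.1 e2 with h0 | h0
  · have b0 : b = 0 := by nlinarith [mul_nonneg hp.le hb, mul_nonneg hq.le hd]
    have a1 : a = 1 := by linarith
    simp [b0, a1]
  · exact absurd (sub_eq_zero.1 h0).symm h.1

lemma edge_symm {n : ℕ} {P : Set (E n)} {u v : E n} (h : IsEdge P u v) : IsEdge P v u :=
  ⟨h.1.symm, by rw [segment_symm]; exact h.2⟩

lemma lat_finite : (poly S0 ∩ {x | IsLat x}).Finite := by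
  have : poly S0 ∩ {x | IsLat x} ⊆ (fun s : ℤ × ℤ × ℤ => vec s.1 s.2.1 s.2.2) ''
      (Icc (0 : ℤ) 1 ×ˢ Icc (0 : ℤ) 1 ×ˢ Icc (0 : ℤ) 5) := by
    rintro x ⟨hx, hl⟩
    obtain ⟨p, hp⟩ := hl 0
    obtain ⟨q, hq⟩ := hl 1
    obtain ⟨r, hr⟩ := hl 2
    obtain ⟨h1, h2, h3, h4, h5, h6, h7, h8⟩ := hdesc x hx
    have h9 : x 2 ≤ 5 := by linarith
    rw [hp] at h1 h2
    rw [hq] at h3 h4
    rw [hr] at h5 h9
    refine ⟨(p, q, r), ⟨⟨?_, ?_⟩, ⟨?_, ?_⟩, ⟨?_, ?_⟩⟩, ext3 hp.symm hq.symm hr.symm⟩ <;>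
      simp only <;> assumption_mod_cast
  exact Finite.subset (Finite.image _ ((finite_Icc _ _).prod
    ((finite_Icc _ _).prod (finite_Icc _ _)))) this

lemma one_le_minLen : 1 ≤ minLen (poly S0) := by
  have hne : {k | ∃ u v, IsEdge (poly S0) u v ∧ k = latLen u v}.Nonempty :=
    ⟨_, _, _, g000.2, rfl⟩
  obtain ⟨u, v, h, e⟩ := Nat.sInf_mem hne
  rw [minLen, e, latLen]
  have hf : (segment ℝ u v ∩ {x | IsLat x}).Finite :=
    lat_finite.subset (inter_subset_inter_left _ h.2.subset)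
  have : 1 < (segment ℝ u v ∩ {x | IsLat x}).ncard := by
    rw [one_lt_ncard hf]
    exact ⟨u, ⟨left_mem_segment _ _ _, ext_lat (left_extreme h)⟩, v,
      ⟨right_mem_segment _ _ _, ext_lat (left_extreme (edge_symm h))⟩, h.1⟩
  omega

lemma gammaP_zero : gammaP (poly S0) = 0 := by
  have : {g | ∃ u ∈ (poly S0).extremePoints ℝ, g = gammaCone (vcone (poly S0) u)} = {0} := by
    ext g
    constructor
    · rintro ⟨u, hu, rfl⟩
      exact gammaCone_eq_zero _ _ (good_all u hu)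
    · rintro rfl
      exact ⟨_, left_extreme g000.2, (gammaCone_eq_zero _ _ g000.1).symm⟩
  rw [gammaP, this, csSup_singleton]

lemma not_intClosed : ¬ IntClosed (poly S0) := by
  intro h
  have h1 := h 1 le_rfl
  have hm : vec 1 1 3 ∈ ((((1 : ℕ) : ℝ) + 1) • poly S0) ∩ {x | IsLat x} := by
    refine ⟨⟨(1 / 2 : ℝ) • ((1 / 2 : ℝ) • vec 1 0 0 + (1 / 2 : ℝ) • vec 0 1 0) +
      (1 / 2 : ℝ) • ((1 / 2 : ℝ) • vec 0 0 1 + (1 / 2 : ℝ) • vec 1 1 5), ?_, ?_⟩, vec_lat _ _ _⟩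
    · exact conv0 (conv0 m100 m010 (by norm_num) (by norm_num) (by norm_num))
        (conv0 m001 m115 (by norm_num) (by norm_num) (by norm_num))
        (by norm_num) (by norm_num) (by norm_num)
    · refine ext3 ?_ ?_ ?_ <;> simp <;> norm_num
  rw [← h1] at hm
  obtain ⟨x, ⟨hx, lx⟩, y, ⟨hy, ly⟩, e⟩ := hm
  simp only [Nat.cast_one, one_smul] at hy
  obtain ⟨p, hp⟩ := lx 0
  obtain ⟨q, hq⟩ := lx 1
  obtain ⟨r, hr⟩ := lx 2
  obtain ⟨h1, h2, h3, h4, h5, h6, h7, h8⟩ := hdesc x hx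
  obtain ⟨g1, g2, g3, g4, g5, g6, g7, g8⟩ := hdesc y hy
  have e0 : y 0 = 1 - p := by have := congrFun e 0; simp at this; linarith
  have e1 : y 1 = 1 - q := by have := congrFun e 1; simp at this; linarith
  have e2 : y 2 = 3 - r := by have := congrFun e 2; simp at this; linarith
  simp only [e0, e1, e2] at g5 g6 g7 g8
  simp only [hp, hq, hr] at h1 h2 h3 h4 h5 h6 h7 h8
  have h1 : 0 ≤ p := by exact_mod_cast h1
  have h2 : p ≤ 1 := by exact_mod_cast h2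
  have h3 : 0 ≤ q := by exact_mod_cast h3
  have h4 : q ≤ 1 := by exact_mod_cast h4
  have h5 : 0 ≤ r := by exact_mod_cast h5
  have g5 : 0 ≤ 3 - r := by exact_mod_cast g5
  have h6 : 4 * p + 4 * q - 4 ≤ r := by exact_mod_cast h6
  have h7 : r ≤ 1 + 4 * p := by exact_mod_cast h7
  have h8 : r ≤ 1 + 4 * q := by exact_mod_cast h8
  have g6 : 4 * (1 - p) + 4 * (1 - q) - 4 ≤ 3 - r := by exact_mod_cast g6
  have g7 : 3 - r ≤ 1 + 4 * (1 - p) := by exact_mod_cast g7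
  have g8 : 3 - r ≤ 1 + 4 * (1 - q) := by exact_mod_cast g8
  omega

lemma interior_ne : (interior (poly S0)).Nonempty := by
  rw [conv0.interior_nonempty_iff_affineSpan_eq_top, eq_top_iff]
  intro x _
  have h0 := mem_affineSpan ℝ m000
  have h1 := mem_affineSpan ℝ m100
  have h2 := mem_affineSpan ℝ m010
  have h3 := mem_affineSpan ℝ m001
  have a1 := AffineSubspace.smul_vsub_vadd_mem _ (x 0) h1 h0 h0
  have a2 := AffineSubspace.smul_vsub_vadd_mem _ (x 1) h2 h0 a1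
  have a3 := AffineSubspace.smul_vsub_vadd_mem _ (x 2) h3 h0 a2
  convert a3 using 1
  refine ext3 ?_ ?_ ?_ <;> simp

end H316Z.Gam
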