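import Pool.Agent.H316Z.Gam.Defs

set_option autoImplicit false

namespace H316Z.Gam

open Set Pointwise

variable {n : ℕ}

/-- height and order are both attained and agree on all lattice points of the cone -/
def Good (Q : Set (E n)) : Prop :=
  ∀ v ∈ Q, IsLat v → ∃ k : ℝ, IsGreatest (htSet Q v) k ∧ IsGreatest (ordSet Q v) k

lemma rayGen_mem {Q : Set (E n)} {w : E n} (h : IsRayGen Q w) : w ∈ Q :=
  h.2.2.2.subset ⟨1, zero_le_one, (one_smul _ _).symm⟩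

lemma sum_le_of_lin (l : E n →ₗ[ℝ] ℝ) (a : E n →₀ ℝ) (h0 : ∀ w, 0 ≤ a w)
    (h1 : ∀ w ∈ a.support, 1 ≤ l w) :
    a.sum (fun _ c => c) ≤ l (a.sum (fun w c => c • w)) := by
  unfold Finsupp.sum
  rw [map_sum]
  refine Finset.sum_le_sum fun w hw => ?_
  rw [map_smul, smul_eq_mul]
  nlinarith [h0 w, h1 w hw]

lemma sum_le_of_lin' (l : E n →ₗ[ℝ] ℝ) (a : E n →₀ ℕ)
    (h1 : ∀ w ∈ a.support, 1 ≤ l w) :
    a.sum (fun _ c => (c : ℝ)) ≤ l (a.sum (fun w c => (c : ℝ) • w)) := by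
  unfold Finsupp.sum
  rw [map_sum]
  refine Finset.sum_le_sum fun w hw => ?_
  rw [map_smul, smul_eq_mul]
  have : (0 : ℝ) ≤ a w := Nat.cast_nonneg _
  nlinarith [h1 w hw]

lemma gen_of (Q : Set (E n)) (l : E n →ₗ[ℝ] ℝ)
    (hpos : ∀ x ∈ Q, IsLat x → x ≠ 0 → 1 ≤ l x)
    (hsm : ∀ x ∈ Q, ∀ t : ℝ, 0 ≤ t → t • x ∈ Q) (w : E n) (hw : IsLat w) (hl : l w = 1)
    (hex : IsExtreme ℝ Q {x | ∃ t : ℝ, 0 ≤ t ∧ x = t • w}) : IsRayGen Q w ∧ IsHilb Q w := by
  have hw0 : w ≠ 0 := by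
    rintro rfl
    simp at hl
  have hwQ : w ∈ Q := hex.subset ⟨1, zero_le_one, (one_smul _ _).symm⟩
  refine ⟨⟨hw0, hw, ?_, hex⟩, hwQ, hw, hw0, ?_⟩
  · intro k y hy hk
    have hk0 : k ≠ 0 := by
      rintro rfl
      simp at hk
      exact hw0 hk
    have hkpos : (0 : ℝ) < k := by exact_mod_cast Nat.pos_of_ne_zero hk0
    have hyQ : y ∈ Q := by
      have : y = (k : ℝ)⁻¹ • w := by
        rw [hk, smul_smul, inv_mul_cancel₀ hkpos.ne', one_smul]
      rw [this]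
      exact hsm w hwQ _ (inv_nonneg.2 hkpos.le)
    have hy0 : y ≠ 0 := by
      rintro rfl
      simp at hk
      exact hw0 hk
    have h1 := hpos y hyQ hy hy0
    have h2 : l w = k * l y := by rw [hk, map_smul, smul_eq_mul]
    have h3 : (k : ℝ) ≤ 1 := by nlinarith
    have h4 : k ≤ 1 := by exact_mod_cast h3
    omega
  · intro x y hx hxl hy hyl hb
    by_contra hne
    push Not at hne
    have h1 := hpos x hx hxl hne.1
    have h2 := hpos y hy hyl hne.2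
    have : l w = l x + l y := by rw [hb, map_add]
    linarith

lemma great_of (Q : Set (E n)) (l : E n →ₗ[ℝ] ℝ)
    (hpos : ∀ x ∈ Q, IsLat x → x ≠ 0 → 1 ≤ l x)
    (w1 w2 w3 : E n) (h1 : IsRayGen Q w1 ∧ IsHilb Q w1) (h2 : IsRayGen Q w2 ∧ IsHilb Q w2)
    (h3 : IsRayGen Q w3 ∧ IsHilb Q w3) (l1 : l w1 = 1) (l2 : l w2 = 1) (l3 : l w3 = 1)
    (a b c : ℕ) (v : E n) (hv : v = (a : ℝ) • w1 + (b : ℝ) • w2 + (c : ℝ) • w3) :
    ∃ k : ℝ, IsGreatest (htSet Q v) k ∧ IsGreatest (ordSet Q v) k := by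
  classical
  have hlv : l v = a + b + c := by
    rw [hv]; simp [l1, l2, l3]
  refine ⟨a + b + c, ⟨?_, ?_⟩, ⟨?_, ?_⟩⟩
  · refine ⟨Finsupp.single w1 (a : ℝ) + Finsupp.single w2 (b : ℝ) + Finsupp.single w3 (c : ℝ),
      ?_, ?_, ?_, ?_⟩
    · intro w
      simp only [Finsupp.add_apply, Finsupp.single_apply]
      have : (0 : ℝ) ≤ a := Nat.cast_nonneg _
      have : (0 : ℝ) ≤ b := Nat.cast_nonneg _
      have : (0 : ℝ) ≤ c := Nat.cast_nonneg _
      split_ifs <;> linarith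
    · intro w hw
      rw [Finsupp.mem_support_iff] at hw
      simp only [Finsupp.add_apply, Finsupp.single_apply] at hw
      by_cases e1 : w1 = w
      · exact e1 ▸ h1.1
      by_cases e2 : w2 = w
      · exact e2 ▸ h2.1
      by_cases e3 : w3 = w
      · exact e3 ▸ h3.1
      simp [e1, e2, e3] at hw
    · rw [Finsupp.sum_add_index', Finsupp.sum_add_index', Finsupp.sum_single_index,
        Finsupp.sum_single_index, Finsupp.sum_single_index, hv] <;> simp [add_smul]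
    · rw [Finsupp.sum_add_index', Finsupp.sum_add_index', Finsupp.sum_single_index,
        Finsupp.sum_single_index, Finsupp.sum_single_index] <;> simp
  · rintro s ⟨f, f0, f1, f2, rfl⟩
    rw [← hlv, f2]
    exact sum_le_of_lin l f f0 fun w hw =>
      hpos w (rayGen_mem (f1 w hw)) (f1 w hw).2.1 (f1 w hw).1
  · refine ⟨Finsupp.single w1 a + Finsupp.single w2 b + Finsupp.single w3 c, ?_, ?_, ?_⟩
    · intro w hw
      rw [Finsupp.mem_support_iff] at hw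
      simp only [Finsupp.add_apply, Finsupp.single_apply] at hw
      by_cases e1 : w1 = w
      · exact e1 ▸ h1.2
      by_cases e2 : w2 = w
      · exact e2 ▸ h2.2
      by_cases e3 : w3 = w
      · exact e3 ▸ h3.2
      simp [e1, e2, e3] at hw
    · rw [Finsupp.sum_add_index', Finsupp.sum_add_index', Finsupp.sum_single_index,
        Finsupp.sum_single_index, Finsupp.sum_single_index, hv] <;> simp [add_smul]
    · rw [Finsupp.sum_add_index', Finsupp.sum_add_index', Finsupp.sum_single_index,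
        Finsupp.sum_single_index, Finsupp.sum_single_index] <;> simp
  · rintro s ⟨f, f1, f2, rfl⟩
    rw [← hlv, f2]
    exact sum_le_of_lin' l f fun w hw => hpos w (f1 w hw).1 (f1 w hw).2.1 (f1 w hw).2.2.1

lemma extreme_of (A B : Set (E n)) (u : E n) (f g : E n →ₗ[ℝ] ℝ) (hBA : B ⊆ A)
    (hf : ∀ x ∈ A, 0 ≤ f (x - u)) (hg : ∀ x ∈ A, 0 ≤ g (x - u))
    (hB : ∀ x ∈ B, f (x - u) = 0 ∧ g (x - u) = 0)
    (hch : ∀ x ∈ A, f (x - u) = 0 → g (x - u) = 0 → x ∈ B) : IsExtreme ℝ A B := by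
  refine ⟨hBA, ?_⟩
  rintro x hx y hy z hz ⟨a, b, ha, hb, hab, rfl⟩
  have e : a • x + b • y - u = a • (x - u) + b • (y - u) := by
    have : u = a • u + b • u := by rw [← add_smul, hab, one_smul]
    conv_lhs => rw [this]
    simp only [smul_sub]
    abel
  obtain ⟨h1, h2⟩ := hB _ hz
  rw [e, map_add, map_smul, map_smul, smul_eq_mul, smul_eq_mul] at h1 h2
  have := hf x hx
  have := hf y hy
  have := hg x hx
  have := hg y hy
  apply hch x hx
  · nlinarith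
  · nlinarith

lemma ray_extreme (Q : Set (E n)) (w : E n) (f g : E n →ₗ[ℝ] ℝ)
    (hsm : ∀ x ∈ Q, ∀ t : ℝ, 0 ≤ t → t • x ∈ Q) (hw : w ∈ Q)
    (hf : ∀ x ∈ Q, 0 ≤ f x) (hg : ∀ x ∈ Q, 0 ≤ g x) (fw : f w = 0) (gw : g w = 0)
    (hch : ∀ x ∈ Q, f x = 0 → g x = 0 → ∃ t : ℝ, 0 ≤ t ∧ x = t • w) :
    IsExtreme ℝ Q {x | ∃ t : ℝ, 0 ≤ t ∧ x = t • w} := by
  refine extreme_of Q _ 0 f g ?_ (by simpa using hf) (by simpa using hg) ?_ (by simpa using hch)
  · rintro x ⟨t, ht, rfl⟩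
    exact hsm w hw t ht
  · rintro x ⟨t, -, rfl⟩
    simp [fw, gw]

lemma edge_of (P : Set (E n)) (hP : Convex ℝ P) (u w : E n) (hu : u ∈ P) (hw : u + w ∈ P)
    (hw0 : w ≠ 0) (f g : E n →ₗ[ℝ] ℝ)
    (hf : ∀ x ∈ P, 0 ≤ f (x - u)) (hg : ∀ x ∈ P, 0 ≤ g (x - u)) (fw : f w = 0) (gw : g w = 0)
    (hch : ∀ x ∈ P, f (x - u) = 0 → g (x - u) = 0 → ∃ t : ℝ, 0 ≤ t ∧ x - u = t • w)
    (hb : ∀ t : ℝ, u + t • w ∈ P → t ≤ 1) : IsEdge P u (u + w) := by
  refine ⟨fun h => hw0 (by simpa using h), ?_⟩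
  refine extreme_of P _ u f g (hP.segment_subset hu hw) hf hg ?_ ?_
  · rintro x ⟨a, b, ha, hb', hab, rfl⟩
    have e : a • u + b • (u + w) - u = b • w := by
      have : a = 1 - b := by linarith
      rw [this]
      simp only [smul_add, sub_smul, one_smul]
      abel
    rw [e]
    simp [fw, gw]
  · intro x hx h1 h2
    obtain ⟨t, ht, e⟩ := hch x hx h1 h2
    have e' : x = u + t • w := by rw [← e]; abel
    have := hb t (e' ▸ hx)
    refine ⟨1 - t, t, by linarith, ht, by ring, ?_⟩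
    rw [e']
    simp only [smul_add, sub_smul, one_smul]
    abel

lemma vcone_smul (P : Set (E n)) (u : E n) :
    ∀ x ∈ vcone P u, ∀ t : ℝ, 0 ≤ t → t • x ∈ vcone P u :=
  fun _ hx _ ht => PointedCone.smul_mem _ ht hx

lemma vcone_add (P : Set (E n)) (u : E n) {x y : E n} (hx : x ∈ vcone P u) (hy : y ∈ vcone P u) :
    x + y ∈ vcone P u := Submodule.add_mem _ hx hy

lemma vcone_zero (P : Set (E n)) (u : E n) : (0 : E n) ∈ vcone P u := Submodule.zero_mem _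

lemma vcone_edge {P : Set (E n)} {u w : E n} (h : IsEdge P u (u + w)) : w ∈ vcone P u :=
  PointedCone.subset_hull ⟨u + w, h, by simp⟩

lemma vcone_nonneg (P : Set (E n)) (u : E n) (f : E n →ₗ[ℝ] ℝ) (hf : ∀ x ∈ P, 0 ≤ f (x - u)) :
    ∀ x ∈ vcone P u, 0 ≤ f x := by
  intro x hx
  refine Submodule.span_induction (p := fun x _ => 0 ≤ f x) ?_ ?_ ?_ ?_ hx
  · rintro w ⟨v, hv, rfl⟩
    exact hf v (hv.2.subset (right_mem_segment _ _ _))
  · simp
  · intro x y _ _ h1 h2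
    rw [map_add]; linarith
  · intro a x _ h
    have : f (a • x) = (a : ℝ) * f x := by
      rw [← smul_eq_mul, ← map_smul]; rfl
    rw [this]
    exact mul_nonneg a.2 h

lemma nat_of {x : ℝ} (h : ∃ z : ℤ, x = z) (h0 : 0 ≤ x) : ∃ k : ℕ, x = k := by
  obtain ⟨z, rfl⟩ := h
  have : 0 ≤ z := by exact_mod_cast h0
  lift z to ℕ using this
  exact ⟨z, by simp⟩

/-- coordinates with respect to a lattice basis -/
structure Frame (A F G : E n) (α β γ : E n →ₗ[ℝ] ℝ) : Prop where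
  dec : ∀ x, x = α x • A + β x • F + γ x • G
  lA : IsLat A
  lF : IsLat F
  lG : IsLat G
  iα : ∀ x, IsLat x → ∃ z : ℤ, α x = z
  iβ : ∀ x, IsLat x → ∃ z : ℤ, β x = z
  iγ : ∀ x, IsLat x → ∃ z : ℤ, γ x = z
  aA : α A = 1
  bA : β A = 0
  cA : γ A = 0
  aF : α F = 0
  bF : β F = 1
  cF : γ F = 0
  aG : α G = 0
  bG : β G = 0
  cG : γ G = 1

lemma good_simple (P : Set (E n)) (hP : Convex ℝ P) (u A F G : E n) (α β γ : E n →ₗ[ℝ] ℝ)
    (fr : Frame A F G α β γ) (hu : u ∈ P) (hA : u + A ∈ P) (hF : u + F ∈ P) (hG : u + G ∈ P)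
    (ha : ∀ x ∈ P, 0 ≤ α (x - u)) (hb : ∀ x ∈ P, 0 ≤ β (x - u)) (hc : ∀ x ∈ P, 0 ≤ γ (x - u))
    (bA : ∀ t : ℝ, u + t • A ∈ P → t ≤ 1) (bF : ∀ t : ℝ, u + t • F ∈ P → t ≤ 1)
    (bG : ∀ t : ℝ, u + t • G ∈ P → t ≤ 1) : Good (vcone P u) ∧ IsEdge P u (u + A) := by
  have A0 : A ≠ 0 := by intro h; have := fr.aA; simp [h] at this
  have F0 : F ≠ 0 := by intro h; have := fr.bF; simp [h] at this
  have G0 : G ≠ 0 := by intro h; have := fr.cG; simp [h] at this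
  have eA : IsEdge P u (u + A) := edge_of P hP u A hu hA A0 β γ hb hc fr.bA fr.cA
    (fun x hx h1 h2 => ⟨α (x - u), ha x hx, by simpa [h1, h2] using fr.dec (x - u)⟩) bA
  have eF : IsEdge P u (u + F) := edge_of P hP u F hu hF F0 α γ ha hc fr.aF fr.cF
    (fun x hx h1 h2 => ⟨β (x - u), hb x hx, by simpa [h1, h2] using fr.dec (x - u)⟩) bF
  have eG : IsEdge P u (u + G) := edge_of P hP u G hu hG G0 α β ha hb fr.aG fr.bG
    (fun x hx h1 h2 => ⟨γ (x - u), hc x hx, by simpa [h1, h2] using fr.dec (x - u)⟩) bG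
  refine ⟨?_, eA⟩
  have qa := vcone_nonneg P u α ha
  have qb := vcone_nonneg P u β hb
  have qc := vcone_nonneg P u γ hc
  have hsm := vcone_smul P u
  have hpos : ∀ x ∈ vcone P u, IsLat x → x ≠ 0 → 1 ≤ (α + β + γ) x := by
    intro x hx hl h0
    obtain ⟨a, ea⟩ := nat_of (fr.iα x hl) (qa x hx)
    obtain ⟨b, eb⟩ := nat_of (fr.iβ x hl) (qb x hx)
    obtain ⟨c, ec⟩ := nat_of (fr.iγ x hl) (qc x hx)
    simp only [LinearMap.add_apply, ea, eb, ec]
    by_contra hlt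
    have : a + b + c < 1 := by exact_mod_cast (not_le.1 hlt)
    have a0 : a = 0 := by omega
    have b0 : b = 0 := by omega
    have c0 : c = 0 := by omega
    apply h0
    rw [fr.dec x, ea, eb, ec, a0, b0, c0]; simp
  have lA : (α + β + γ) A = 1 := by simp [fr.aA, fr.bA, fr.cA]
  have lF : (α + β + γ) F = 1 := by simp [fr.aF, fr.bF, fr.cF]
  have lG : (α + β + γ) G = 1 := by simp [fr.aG, fr.bG, fr.cG]
  have gA := gen_of _ _ hpos hsm A fr.lA lA (ray_extreme _ A β γ hsm (vcone_edge eA) qb qc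
    fr.bA fr.cA (fun x hx h1 h2 => ⟨α x, qa x hx, by simpa [h1, h2] using fr.dec x⟩))
  have gF := gen_of _ _ hpos hsm F fr.lF lF (ray_extreme _ F α γ hsm (vcone_edge eF) qa qc
    fr.aF fr.cF (fun x hx h1 h2 => ⟨β x, qb x hx, by simpa [h1, h2] using fr.dec x⟩))
  have gG := gen_of _ _ hpos hsm G fr.lG lG (ray_extreme _ G α β hsm (vcone_edge eG) qa qb
    fr.aG fr.bG (fun x hx h1 h2 => ⟨γ x, qc x hx, by simpa [h1, h2] using fr.dec x⟩))
  intro x hx hl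
  obtain ⟨a, ea⟩ := nat_of (fr.iα x hl) (qa x hx)
  obtain ⟨b, eb⟩ := nat_of (fr.iβ x hl) (qb x hx)
  obtain ⟨c, ec⟩ := nat_of (fr.iγ x hl) (qc x hx)
  exact great_of _ _ hpos A F G gA gF gG lA lF lG a b c x (by rw [← ea, ← eb, ← ec]; exact fr.dec x)

lemma good_four (P : Set (E n)) (hP : Convex ℝ P) (u A F G B : E n) (α β γ : E n →ₗ[ℝ] ℝ)
    (fr : Frame A F G α β γ) (hBe : B = (-1 : ℝ) • A + (4 : ℝ) • F + G) (lB : IsLat B)
    (hu : u ∈ P) (hA : u + A ∈ P) (hF : u + F ∈ P) (hG : u + G ∈ P) (hB : u + B ∈ P)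
    (hb : ∀ x ∈ P, 0 ≤ β (x - u)) (hc : ∀ x ∈ P, 0 ≤ γ (x - u))
    (hd : ∀ x ∈ P, 0 ≤ (α + γ) (x - u)) (he : ∀ x ∈ P, 0 ≤ ((4 : ℝ) • α + β) (x - u))
    (bA : ∀ t : ℝ, u + t • A ∈ P → t ≤ 1) (bF : ∀ t : ℝ, u + t • F ∈ P → t ≤ 1)
    (bG : ∀ t : ℝ, u + t • G ∈ P → t ≤ 1) (bB : ∀ t : ℝ, u + t • B ∈ P → t ≤ 1) :
    Good (vcone P u) := by
  have aB : α B = -1 := by simp [hBe, fr.aA, fr.aF, fr.aG]
  have bB' : β B = 4 := by simp [hBe, fr.bA, fr.bF, fr.bG]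
  have cB : γ B = 1 := by simp [hBe, fr.cA, fr.cF, fr.cG]
  have A0 : A ≠ 0 := by intro h; have := fr.aA; simp [h] at this
  have F0 : F ≠ 0 := by intro h; have := fr.bF; simp [h] at this
  have G0 : G ≠ 0 := by intro h; have := fr.cG; simp [h] at this
  have B0 : B ≠ 0 := by intro h; simp [h] at cB
  have decB : ∀ x, x = (-α x) • B + (4 * α x + β x) • F + (α x + γ x) • G := by
    intro x
    conv_lhs => rw [fr.dec x]
    rw [hBe]
    module
  have cA : ∀ x, 0 ≤ (α + γ) x → β x = 0 → γ x = 0 → ∃ t : ℝ, 0 ≤ t ∧ x = t • A :=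
    fun x h0 h1 h2 => ⟨α x, by simpa [h2] using h0, by simpa [h1, h2] using fr.dec x⟩
  have cF : ∀ x, 0 ≤ β x → γ x = 0 → (α + γ) x = 0 → ∃ t : ℝ, 0 ≤ t ∧ x = t • F := by
    intro x h0 h1 h2
    have h3 : α x = 0 := by simpa [h1] using h2
    exact ⟨β x, h0, by simpa [h1, h3] using fr.dec x⟩
  have cG : ∀ x, 0 ≤ γ x → β x = 0 → ((4 : ℝ) • α + β) x = 0 → ∃ t : ℝ, 0 ≤ t ∧ x = t • G := by
    intro x h0 h1 h2
    have h3 : α x = 0 := by simpa [h1] using h2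
    exact ⟨γ x, h0, by simpa [h1, h3] using fr.dec x⟩
  have cBB : ∀ x, 0 ≤ γ x → (α + γ) x = 0 → ((4 : ℝ) • α + β) x = 0 →
      ∃ t : ℝ, 0 ≤ t ∧ x = t • B := by
    intro x h0 h1 h2
    have h3 : α x + γ x = 0 := by simpa using h1
    have h4 : 4 * α x + β x = 0 := by simpa using h2
    refine ⟨-α x, by linarith, ?_⟩
    have := decB x
    rw [h3, h4] at this
    simpa using this
  have dF : (α + γ) F = 0 := by simp [fr.aF, fr.cF]
  have eG' : ((4 : ℝ) • α + β) G = 0 := by simp [fr.aG, fr.bG]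
  have dB : (α + γ) B = 0 := by simp [aB, cB]
  have eB' : ((4 : ℝ) • α + β) B = 0 := by simp [aB, bB']
  have eA : IsEdge P u (u + A) := edge_of P hP u A hu hA A0 β γ hb hc fr.bA fr.cA
    (fun x hx => cA _ (hd x hx)) bA
  have eF : IsEdge P u (u + F) := edge_of P hP u F hu hF F0 γ (α + γ) hc hd fr.cF dF
    (fun x hx => cF _ (hb x hx)) bF
  have eG : IsEdge P u (u + G) := edge_of P hP u G hu hG G0 β _ hb he fr.bG eG'
    (fun x hx => cG _ (hc x hx)) bG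
  have eB : IsEdge P u (u + B) := edge_of P hP u B hu hB B0 _ _ hd he dB eB'
    (fun x hx => cBB _ (hc x hx)) bB
  have qb := vcone_nonneg P u β hb
  have qc := vcone_nonneg P u γ hc
  have qd := vcone_nonneg P u _ hd
  have qe := vcone_nonneg P u _ he
  have hsm := vcone_smul P u
  have key : ∀ x ∈ vcone P u, IsLat x → x ≠ 0 →
      1 ≤ α x + β x + γ x ∧ 1 ≤ 4 * α x + β x + γ x := by
    intro x hx hl h0
    obtain ⟨a, ea⟩ := fr.iα x hl
    obtain ⟨b, eb⟩ := fr.iβ x hl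
    obtain ⟨c, ec⟩ := fr.iγ x hl
    have h1 := qb x hx
    have h2 := qc x hx
    have h3 : 0 ≤ α x + γ x := by simpa using qd x hx
    have h4 : 0 ≤ 4 * α x + β x := by simpa using qe x hx
    have hne : ¬ (a = 0 ∧ b = 0 ∧ c = 0) := by
      rintro ⟨a0, b0, c0⟩
      apply h0
      rw [fr.dec x, ea, eb, ec, a0, b0, c0]; simp
    rw [ea, eb, ec] at *
    have h1' : 0 ≤ b := by exact_mod_cast h1
    have h2' : 0 ≤ c := by exact_mod_cast h2
    have h3' : 0 ≤ a + c := by exact_mod_cast h3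
    have h4' : 0 ≤ 4 * a + b := by exact_mod_cast h4
    have r1 : 1 ≤ a + b + c := by omega
    have r2 : 1 ≤ 4 * a + b + c := by omega
    exact ⟨by exact_mod_cast r1, by exact_mod_cast r2⟩
  have hp1 : ∀ x ∈ vcone P u, IsLat x → x ≠ 0 → 1 ≤ (α + β + γ) x :=
    fun x hx hl h0 => by simpa using (key x hx hl h0).1
  have hp2 : ∀ x ∈ vcone P u, IsLat x → x ≠ 0 → 1 ≤ ((4 : ℝ) • α + β + γ) x :=
    fun x hx hl h0 => by simpa using (key x hx hl h0).2
  have lA : (α + β + γ) A = 1 := by simp [fr.aA, fr.bA, fr.cA]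
  have lF : (α + β + γ) F = 1 := by simp [fr.aF, fr.bF, fr.cF]
  have lG : (α + β + γ) G = 1 := by simp [fr.aG, fr.bG, fr.cG]
  have mB : ((4 : ℝ) • α + β + γ) B = 1 := by simp [aB, bB', cB]
  have mF : ((4 : ℝ) • α + β + γ) F = 1 := by simp [fr.aF, fr.bF, fr.cF]
  have mG : ((4 : ℝ) • α + β + γ) G = 1 := by simp [fr.aG, fr.bG, fr.cG]
  have gA := gen_of _ _ hp1 hsm A fr.lA lA (ray_extreme _ A β γ hsm (vcone_edge eA) qb qc
    fr.bA fr.cA (fun x hx => cA _ (qd x hx)))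
  have gF := gen_of _ _ hp1 hsm F fr.lF lF (ray_extreme _ F γ _ hsm (vcone_edge eF) qc qd
    fr.cF dF (fun x hx => cF _ (qb x hx)))
  have gG := gen_of _ _ hp1 hsm G fr.lG lG (ray_extreme _ G β _ hsm (vcone_edge eG) qb qe
    fr.bG eG' (fun x hx => cG _ (qc x hx)))
  have gB := gen_of _ _ hp2 hsm B lB mB (ray_extreme _ B _ _ hsm (vcone_edge eB) qd qe
    dB eB' (fun x hx => cBB _ (qc x hx)))
  intro x hx hl
  obtain ⟨a, ea⟩ := fr.iα x hl
  obtain ⟨b, eb⟩ := fr.iβ x hl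
  obtain ⟨c, ec⟩ := fr.iγ x hl
  rcases le_total 0 (α x) with h | h
  · obtain ⟨a', ea'⟩ := nat_of (fr.iα x hl) h
    obtain ⟨b', eb'⟩ := nat_of (fr.iβ x hl) (qb x hx)
    obtain ⟨c', ec'⟩ := nat_of (fr.iγ x hl) (qc x hx)
    exact great_of _ _ hp1 A F G gA gF gG lA lF lG a' b' c' x
      (by rw [← ea', ← eb', ← ec']; exact fr.dec x)
  · obtain ⟨a', ea'⟩ := nat_of (x := -α x) ⟨-a, by simp [ea]⟩ (by linarith)
    obtain ⟨b', eb'⟩ := nat_of (x := 4 * α x + β x) ⟨4 * a + b, by simp [ea, eb]⟩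
      (by simpa using qe x hx)
    obtain ⟨c', ec'⟩ := nat_of (x := α x + γ x) ⟨a + c, by simp [ea, ec]⟩
      (by simpa using qd x hx)
    exact great_of _ _ hp2 B F G gB gF gG mB mF mG a' b' c' x
      (by rw [← ea', ← eb', ← ec']; exact decB x)

lemma gammaCone_eq_zero (P : Set (E n)) (u : E n) (h : Good (vcone P u)) :
    gammaCone (vcone P u) = 0 := by
  have : {g | ∃ v ∈ box (vcone P u), IsLat v ∧ g = ht (vcone P u) v - ord (vcone P u) v}
      = {0} := by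
    ext g
    constructor
    · rintro ⟨v, ⟨a, a0, a1, rfl⟩, hl, rfl⟩
      have hv : a.sum (fun w c => c • w) ∈ vcone P u := by
        unfold Finsupp.sum
        exact Submodule.sum_mem _ fun w hw => vcone_smul P u w (rayGen_mem (a1 w hw)) _ (a0 w).1
      obtain ⟨k, k1, k2⟩ := h _ hv hl
      simp [ht, ord, k1.csSup_eq, k2.csSup_eq]
    · rintro rfl
      have hl : IsLat (0 : E n) := fun i => ⟨0, by simp⟩
      refine ⟨0, ⟨0, by simp, by simp, by simp⟩, hl, ?_⟩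
      obtain ⟨k, k1, k2⟩ := h _ (vcone_zero P u) hl
      simp [ht, ord, k1.csSup_eq, k2.csSup_eq]
  rw [gammaCone, this, csSup_singleton]

end H316Z.Gam
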